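import Pool.Agent.Lib.MP_395ab6_co.Asym

/-! The best constant in the permanent inequality is asymptotic to the logarithm of the size. -/

namespace Pool.Agent.Results.MP_395ab6_co.BestConstant

open Filter Topology
open scoped ComplexOrder

theorem result : ∃ K : ℕ → ℝ,
    (∀ n : ℕ, IsLeast {C : ℝ | ∀ A : Matrix (Fin (n + 1)) (Fin (n + 1)) ℂ, A.PosSemidef →
      ∑ k ∈ (Finset.univ : Finset (Fin (n + 1))).erase 0,
        ‖A 0 k‖ ^ 2 * (A.submatrix (fun j : {j : Fin (n + 1) // j ≠ 0 ∧ j ≠ k} => j.1)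
          (fun j : {j : Fin (n + 1) // j ≠ 0 ∧ j ≠ k} => j.1)).permanent.re ≤
        C * A.permanent.re} (K n)) ∧
    Tendsto (fun n : ℕ => K n / Real.log (n + 1)) atTop (𝓝 1) :=
  Pool.Agent.Lib.MP_395ab6_co.best_constant

end Pool.Agent.Results.MP_395ab6_co.BestConstant
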