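import Mathlib
import Pool.Agent.Lib.MP_395ab6_co.RankTwo

/-! A positive semidefinite `12 × 12` matrix of rank two violating the permanent inequality. -/

namespace Pool.Agent.Lib.MP_395ab6_co

/-- First coordinates of the twelve vectors. -/
def cc : Fin 12 → GaussianInt :=
  ![⟨1, 0⟩, ⟨7, 0⟩, ⟨9, 0⟩, ⟨7, 0⟩, ⟨7, 0⟩, ⟨9, 0⟩, ⟨5, 0⟩, ⟨5, 0⟩, ⟨1, 0⟩, ⟨5, 0⟩, ⟨5, 0⟩, ⟨0, 0⟩]

/-- Second coordinates of the twelve vectors. -/
def dd : Fin 12 → GaussianInt :=
  ![⟨0, 0⟩, ⟨5, 0⟩, ⟨2, 6⟩, ⟨-4, 3⟩, ⟨-4, -3⟩, ⟨2, -6⟩, ⟨8, 6⟩, ⟨-3, 9⟩, ⟨-2, 0⟩, ⟨-3, -9⟩,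
    ⟨8, -6⟩, ⟨1, 0⟩]

/-- The Gram matrix over the Gaussian integers. -/
def MM : Matrix (Fin 12) (Fin 12) GaussianInt :=
  Matrix.of fun i j => cc i * star (cc j) + dd i * star (dd j)

lemma key : (permVal ((List.finRange 12).map fun j => (cc j, dd j))
      ((List.finRange 12).map fun j => (star (cc j), star (dd j)))).re <
    ∑ k ∈ (Finset.univ : Finset (Fin 12)).erase 0,
      (cc 0 * star (cc k) + dd 0 * star (dd k)).norm *
      (permVal (((List.finRange 12).filter fun j => decide (j ≠ 0 ∧ j ≠ k)).map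
          fun j => (cc j, dd j))
        (((List.finRange 12).filter fun j => decide (j ≠ 0 ∧ j ≠ k)).map
          fun j => (star (cc j), star (dd j)))).re := by
  decide +kernel

open scoped ComplexOrder in
lemma psd : (MM.map GaussianInt.toComplex).PosSemidef := by
  have h := Matrix.posSemidef_self_mul_conjTranspose
    (Matrix.of fun (i : Fin 12) (t : Fin 2) =>
      if t = 0 then GaussianInt.toComplex (cc i) else GaussianInt.toComplex (dd i))
  convert h using 1
  ext i j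
  simp [MM, Matrix.mul_apply, Fin.sum_univ_two]

end Pool.Agent.Lib.MP_395ab6_co

namespace Pool.Agent.Results.MP_395ab6_co.Counterexample

open Pool.Agent.Lib.MP_395ab6_co
open scoped ComplexOrder

theorem result : ∃ A : Matrix (Fin 12) (Fin 12) ℂ, A.PosSemidef ∧
    A.permanent.re < ∑ k ∈ (Finset.univ : Finset (Fin 12)).erase 0,
      ‖A 0 k‖ ^ 2 * (A.submatrix (fun j : {j : Fin 12 // j ≠ 0 ∧ j ≠ k} => j.1)
        (fun j : {j : Fin 12 // j ≠ 0 ∧ j ≠ k} => j.1)).permanent.re := by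
  refine ⟨MM.map GaussianInt.toComplex, psd, ?_⟩
  have h0 : (MM.map GaussianInt.toComplex).permanent.re =
      (((permVal ((List.finRange 12).map fun j => (cc j, dd j))
      ((List.finRange 12).map fun j => (star (cc j), star (dd j)))).re : ℤ) : ℝ) := by
    rw [permanent_map, MM, permanent_fin]
    simp
  have h1 : ∀ k : Fin 12, ‖(MM.map GaussianInt.toComplex) 0 k‖ ^ 2 *
      ((MM.map GaussianInt.toComplex).submatrix (fun j : {j : Fin 12 // j ≠ 0 ∧ j ≠ k} => j.1)
        (fun j : {j : Fin 12 // j ≠ 0 ∧ j ≠ k} => j.1)).permanent.re =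
      (((cc 0 * star (cc k) + dd 0 * star (dd k)).norm *
      (permVal (((List.finRange 12).filter fun j => decide (j ≠ 0 ∧ j ≠ k)).map
          fun j => (cc j, dd j))
        (((List.finRange 12).filter fun j => decide (j ≠ 0 ∧ j ≠ k)).map
          fun j => (star (cc j), star (dd j)))).re : ℤ) : ℝ) := by
    intro k
    rw [Matrix.submatrix_map, permanent_map, MM,
      permanent_subtype (fun j : Fin 12 => j ≠ 0 ∧ j ≠ k), Int.cast_mul,
      GaussianInt.intCast_real_norm, Complex.normSq_eq_norm_sq]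
    simp
  rw [h0, Finset.sum_congr rfl fun k _ => h1 k, ← Int.cast_sum]
  exact_mod_cast key

end Pool.Agent.Results.MP_395ab6_co.Counterexample
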