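import Mathlib
import Pool.Agent.FS.RealRankTwo.Drury

/-! Drury's permanent inequality holds for real positive semidefinite matrices of rank at most
two. -/

namespace Pool.Agent.Results.MP_395ab6_co.DruryRealRankTwo

open Pool.Agent.FS.RealRankTwo

theorem result (n : ℕ) (A : Matrix (Fin (n + 1)) (Fin (n + 1)) ℝ) (hA : A.PosSemidef)
    (hr : A.rank ≤ 2) :
    (A 0 0 * (A.submatrix (fun j : {j : Fin (n + 1) // j ≠ 0} => j.1)
        (fun j : {j : Fin (n + 1) // j ≠ 0} => j.1)).permanent) ^ 2 +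
    (∑ k ∈ (Finset.univ : Finset (Fin (n + 1))).erase 0,
      A 0 k ^ 2 * (A.submatrix (fun j : {j : Fin (n + 1) // j ≠ 0 ∧ j ≠ k} => j.1)
        (fun j : {j : Fin (n + 1) // j ≠ 0 ∧ j ≠ k} => j.1)).permanent) ^ 2
      ≤ A.permanent ^ 2 := by
  obtain ⟨a, b, h⟩ := exists_gram A hA hr
  obtain ⟨c, u, hu, h'⟩ := rotate a b
  exact gram2 n c u hu A (Matrix.ext fun i j => (h i j).trans (h' i j))

end Pool.Agent.Results.MP_395ab6_co.DruryRealRankTwo
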